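import Pool.Prelude.Def_F_c31e40fa
import Pool.Agent.R240.Growth2
import Pool.Agent.Y736.HG7
import Pool.Agent.H548R3.MB.Eff2

set_option autoImplicit false

open Filter Topology MeasureTheory Set Metric Complex N62a1eb23

namespace Pool.Agent.Results.MP_c35c17_an.CentresGrowth

open Pool.Agent.H713R2

/-- The map `z ↦ z ^ d + c`. -/
def f (d : ℕ) (c : ℂ) : ℂ → ℂ := fun z => z ^ d + c

/-- The superattracting parameters of period dividing `n` in the open disc of radius `r` about
`c`. -/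
def centres (d n : ℕ) (c : ℂ) (r : ℝ) : Set ℂ := {c' | c' ∈ ball c r ∧ (f d c')^[n] 0 = 0}

/-- The number of superattracting parameters of period dividing `n` within `exp (-β n)` of `c₀`
grows exactly like `exp (g n)`, in the sense that its logarithm divided by `n` tends to `g`. -/
def Growth (d : ℕ) (c₀ : ℂ) (β g : ℝ) : Prop :=
  Tendsto (fun n : ℕ => Real.log (centres d n c₀ (Real.exp (-(β * n)))).ncard / n) atTop (𝓝 g)

/-- **The growth of the number of superattracting parameters in exponentially shrinking discs** is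
determined by the Lyapunov exponent `χ` of the critical value, up to the critical rate of shrinking
`χ`; beyond the critical rate there are none. -/
theorem result (d : ℕ) (hd : 2 ≤ d) :
    -- the parameters that are counted are finite in number and have an attracting cycle
    (∀ (n : ℕ) (c : ℂ) (r : ℝ), 0 < n →
      (centres d n c r).Finite ∧ ∀ c' ∈ centres d n c r, IsAttractingCycle (f d c') n 0) ∧
    -- at every parameter of the Multibrot set with a positive Lyapunov exponent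
    (∀ (χ : ℝ) (c₀ : ℂ), 0 < χ → c₀ ∈ multibrotSet d →
      Tendsto (fun n : ℕ => Real.log ‖deriv ((f d c₀)^[n]) c₀‖ / n) atTop (𝓝 χ) →
      (∀ β : ℝ, 0 < β → β < χ → Growth d c₀ β ((1 - β / χ) * Real.log d)) ∧
      ∀ β : ℝ, χ < β → ∀ᶠ n : ℕ in atTop, centres d n c₀ (Real.exp (-(β * n))) = ∅) ∧
    -- at harmonic-almost every parameter of the boundary
    (∃ ψ : ℂ → ℂ, IsExteriorMap (multibrotSet d) ψ) ∧
    ∀ ψ : ℂ → ℂ, IsExteriorMap (multibrotSet d) ψ →
      ∀ᵐ θ : ℝ, ∃ c₀ ∈ frontier (multibrotSet d),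
        Tendsto (fun ρ : ℝ => ψ (ρ * exp (θ * I))) (𝓝[>] 1) (𝓝 c₀) ∧
        (∀ β : ℝ, 0 < β → β < Real.log d → Growth d c₀ β (Real.log d - β)) ∧
        ∀ β : ℝ, Real.log d < β → ∀ᶠ n : ℕ in atTop, centres d n c₀ (Real.exp (-(β * n))) = ∅ := by
  obtain ⟨β', hβ'⟩ := exists_beta (d := d) hd
  have hdR : (1 : ℝ) < d := by exact_mod_cast (by omega : 1 < d)
  have hL : 0 < Real.log d := Real.log_pos hdR
  refine ⟨?_, ?_, ⟨_, exteriorMap_of_beta hβ'⟩, ?_⟩
  · intro n c r hn
    obtain ⟨N, rfl⟩ : ∃ N, n = N + 1 := ⟨n - 1, by omega⟩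
    refine ⟨Pool.Agent.R240.Cen_finite hd N c r, ?_⟩
    rintro c' ⟨-, hc'⟩
    exact Pool.Agent.H548R3.MB.att_of_centre hd (by omega) hc'
  · intro χ c₀ hχ hc₀ hlim
    exact ⟨fun β hβ0 hβ => Pool.Agent.R240.growth hd ⟨hχ, hc₀, hlim⟩ hβ0 hβ,
      fun β hβ => Pool.Agent.R240.none_beyond hd ⟨hχ, hc₀, hlim⟩ hβ⟩
  · intro ψ hψ
    filter_upwards [Pool.Agent.Y272.TY.ae_neg' (Pool.Agent.Y272.TY.typical_all hd hβ')] with θ hθ
    obtain ⟨c₀, A, R, h⟩ := hθ
    have hlim := h.tendsto_psi hβ' hψ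
    have hly := Pool.Agent.Y298.CA.lyap_of_typ hd hβ' h
    refine ⟨c₀, h.frontier hd hβ', hlim, ?_, fun β hβ =>
      Pool.Agent.R240.none_beyond hd hly hβ⟩
    intro β hβ0 hβ
    have h1 := Pool.Agent.R240.growth hd hly hβ0 hβ
    have h2 : (1 - β / Real.log d) * Real.log d = Real.log d - β := by
      field_simp
    rw [h2] at h1
    exact h1

end Pool.Agent.Results.MP_c35c17_an.CentresGrowth
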