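import Pool.Prelude.Def_F_c31e40fa
import Pool.Agent.R240.Orbit

set_option autoImplicit false

open Filter Topology Set Metric Complex N62a1eb23

namespace Pool.Agent.Results.MP_c35c17_an.ClosingLemma

/-- The map `z ↦ z ^ d + c`. -/
def f (d : ℕ) (c : ℂ) : ℂ → ℂ := fun z => z ^ d + c

/-- The point `f_c^n (0)` of the critical orbit. -/
def P (d n : ℕ) (c : ℂ) : ℂ := (f d c)^[n] 0

/-- The derivative `(f_c^n)'(c)` of the `n`-th iterate at the critical value. -/
noncomputable def D (d : ℕ) (c : ℂ) (n : ℕ) : ℂ := deriv (f d c)^[n] c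

/-- The parameters `c` for which `z ^ d + c` has an attracting cycle. -/
def Hyp (d : ℕ) : Set ℂ := {c | ∃ m z, IsAttractingCycle (f d c) m z}

theorem prod_Icc (g : ℕ → ℝ) (N : ℕ) :
    ∏ i ∈ Finset.Icc 1 N, g i = ∏ i ∈ Finset.range N, g (i + 1) := by
  induction N with
  | zero => simp
  | succ N ih => rw [Finset.prod_Icc_succ_top (by omega), Finset.prod_range_succ, ih]

/-- **Closing lemma.** The critical orbit of a map in the unicritical family is closed at the time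
`N + 1` by a change of the parameter, whose size is controlled by the orbit in the dynamical plane:
by the derivative at the time `N` and by the size of the points of the orbit at the times in a set
`B`, outside which the inverses of the derivatives have a small sum. Hence (second part) a disc of
parameters without attracting cycles gives an upper bound of all finite pieces of the critical orbit.
The third part is a lower bound. -/
theorem result :
    ∃ K : ℝ, 0 < K ∧ ∀ d : ℕ, 2 ≤ d → ∀ c ∈ multibrotSet d,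
      (∀ (N : ℕ) (B : Finset ℕ), B ⊆ Finset.Icc 1 N →
        2 * ∑ i ∈ Finset.Icc 1 N \ B, ‖D d c i‖⁻¹ ≤ ∏ i ∈ B, ‖P d i c‖ ^ d / 6 →
        ∃ a : ℂ, IsAttractingCycle (f d a) (N + 1) 0 ∧ deriv (f d a)^[N + 1] 0 = 0 ∧
          ‖a - c‖ * (‖D d c N‖ * ∏ i ∈ B, ‖P d i c‖ ^ d / 6) ≤
            K * ‖P d (N + 1) c‖ * (1 + |Real.log ‖P d (N + 1) c‖|)) ∧
      (∀ r : ℝ, Disjoint (ball c r) (Hyp d) → ∀ N : ℕ,
        r * ∏ i ∈ Finset.Icc 1 N, (d * ‖P d i c‖ ^ (2 * d - 1) / 6) ≤ K) ∧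
      (c ∉ Hyp d → ∀ N : ℕ,
        1 ≤ (400 : ℝ) ^ N * ∏ i ∈ Finset.Icc 1 N, (d * ‖P d i c‖ ^ (d - 1))) := by
  have hK := Pool.Agent.R240.KN_pos
  refine ⟨8 * (8 * Pool.Agent.R240.KN + 16), by positivity, ?_⟩
  intro d hd c hc
  have hd0 : (2:ℝ) ≤ d := by exact_mod_cast hd
  have hDD : ∀ n, D d c n = Pool.Agent.R240.Univ.DD d c n := fun n =>
    Pool.Agent.R240.Trans.DD_eq hd c n
  have hDn : ∀ N, ‖Pool.Agent.R240.Univ.DD d c N‖ =
      ∏ i ∈ Finset.Icc 1 N, (d * ‖P d i c‖ ^ (d - 1)) := by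
    intro N
    rw [prod_Icc]
    unfold Pool.Agent.R240.Univ.DD
    rw [norm_prod]
    apply Finset.prod_congr rfl
    intro i _
    rw [norm_mul, norm_pow, Complex.norm_natCast]
    rfl
  have main : ∀ (N : ℕ) (B : Finset ℕ), B ⊆ Finset.Icc 1 N →
        2 * ∑ i ∈ Finset.Icc 1 N \ B, ‖D d c i‖⁻¹ ≤ ∏ i ∈ B, ‖P d i c‖ ^ d / 6 →
        ∃ a : ℂ, IsAttractingCycle (f d a) (N + 1) 0 ∧ deriv (f d a)^[N + 1] 0 = 0 ∧
          ‖a - c‖ * (‖D d c N‖ * ∏ i ∈ B, ‖P d i c‖ ^ d / 6) ≤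
            (8 * Pool.Agent.R240.KN + 16) * ‖P d (N + 1) c‖ *
              (1 + |Real.log ‖P d (N + 1) c‖|) := by
    intro N B hB ht
    simp only [hDD] at ht ⊢
    obtain ⟨a, ha, hac⟩ := Pool.Agent.R240.Trans.clos1 hd hc N hB ht
    refine ⟨a, Pool.Agent.H548R3.MB.att_of_centre hd (by omega) ha, ?_, ?_⟩
    · have hf : Differentiable ℂ (f d a) := by unfold f; fun_prop
      rw [Function.iterate_succ, deriv_comp _ ((hf.iterate N) _) (hf 0)]
      have : deriv (f d a) 0 = 0 := by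
        have h1 : deriv (f d a) 0 = d * (0:ℂ) ^ (d - 1) := ((hasDerivAt_pow d 0).add_const a).deriv
        rw [h1, zero_pow (by omega), mul_zero]
      rw [this, mul_zero]
    · rw [← mul_assoc]
      exact hac
  refine ⟨?_, ?_, ?_⟩
  · intro N B hB ht
    obtain ⟨a, h1, h2, h3⟩ := main N B hB ht
    refine ⟨a, h1, h2, h3.trans ?_⟩
    gcongr
    linarith
  · intro r hr N
    have hpn : 0 ≤ ∏ i ∈ Finset.Icc 1 N, ‖P d i c‖ ^ d / 6 :=
      Finset.prod_nonneg fun _ _ => by positivity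
    obtain ⟨a, h1, -, h3⟩ := main N (Finset.Icc 1 N) subset_rfl (by
      rw [Finset.sdiff_self, Finset.sum_empty, mul_zero]
      exact hpn)
    have h4 : ‖D d c N‖ * ∏ i ∈ Finset.Icc 1 N, ‖P d i c‖ ^ d / 6 =
        ∏ i ∈ Finset.Icc 1 N, (d * ‖P d i c‖ ^ (2 * d - 1) / 6) := by
      rw [hDD, hDn, ← Finset.prod_mul_distrib]
      apply Finset.prod_congr rfl
      intro i _
      have : ‖P d i c‖ ^ (2 * d - 1) = ‖P d i c‖ ^ (d - 1) * ‖P d i c‖ ^ d := by
        rw [← pow_add]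
        congr 1
        omega
      rw [this]
      ring
    rw [h4] at h3
    have hr2 : r ≤ ‖a - c‖ := by
      by_contra hcon
      push Not at hcon
      exact Set.disjoint_left.1 hr (by rw [mem_ball, dist_eq_norm]; exact hcon) ⟨_, _, h1⟩
    have hP2 : ‖P d (N + 1) c‖ ≤ 2 := Pool.Agent.R240.Univ.norm_P_le hd hc (N + 1)
    have hP0 := norm_nonneg (P d (N + 1) c)
    obtain ⟨x, hx⟩ : ∃ x, x = ‖P d (N + 1) c‖ := ⟨_, rfl⟩
    rw [← hx] at h3 hP2 hP0
    have hxl : x * (1 + |Real.log x|) ≤ 8 := by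
      rcases le_or_gt x 1 with h | h
      · have := Pool.Agent.R240.Trans.xlog_le hP0 h
        have h5 : √x ≤ 1 := Real.sqrt_le_one.2 h |>.trans le_rfl
        nlinarith [abs_nonneg (Real.log x)]
      · have h5 : |Real.log x| ≤ 1 := by
          rw [abs_of_nonneg (Real.log_nonneg h.le)]
          have := Real.log_le_sub_one_of_pos (by linarith : (0:ℝ) < x)
          linarith
        nlinarith [abs_nonneg (Real.log x)]
    have h6 : 0 ≤ ∏ i ∈ Finset.Icc 1 N, (d * ‖P d i c‖ ^ (2 * d - 1) / 6) :=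
      Finset.prod_nonneg fun _ _ => by positivity
    calc r * ∏ i ∈ Finset.Icc 1 N, (d * ‖P d i c‖ ^ (2 * d - 1) / 6)
        ≤ ‖a - c‖ * ∏ i ∈ Finset.Icc 1 N, (d * ‖P d i c‖ ^ (2 * d - 1) / 6) := by gcongr
      _ ≤ (8 * Pool.Agent.R240.KN + 16) * x * (1 + |Real.log x|) := h3
      _ = (8 * Pool.Agent.R240.KN + 16) * (x * (1 + |Real.log x|)) := by ring
      _ ≤ (8 * Pool.Agent.R240.KN + 16) * 8 := by gcongr
      _ = _ := by ring
  · intro hH N
    have h1 := Pool.Agent.R240.Trans.nonhyp_prod hd (c := c) hH N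
    rw [prod_Icc (fun i => (d:ℝ) * ‖P d i c‖ ^ (d - 1)), Finset.prod_mul_distrib, Finset.prod_const,
      Finset.card_range, ← mul_assoc, ← mul_pow]
    exact h1

end Pool.Agent.Results.MP_c35c17_an.ClosingLemma
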