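import Pool.Prelude.Def_F_c31e40fa
import Pool.Agent.R240.Full3
import Pool.Agent.R240.Univ4

set_option autoImplicit false

open Filter Topology Set Metric Complex MeasureTheory N62a1eb23

namespace Pool.Agent.Results.MP_c35c17_an.Decomposition

/-- The map `z ↦ z ^ d + c`. -/
def f (d : ℕ) (c : ℂ) : ℂ → ℂ := fun z => z ^ d + c

/-- The point `f_c^n (0)` of the critical orbit, as a polynomial in the parameter `c`. -/
def P (d n : ℕ) (c : ℂ) : ℂ := (f d c)^[n] 0

/-- The filled Julia set of `z ^ d + c`: the points with bounded orbits. -/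
def filledJulia (d : ℕ) (c : ℂ) : Set ℂ := {z | ∃ B : ℝ, ∀ n : ℕ, ‖(f d c)^[n] z‖ ≤ B}

/-- The parameters `c` for which `z ^ d + c` has an attracting cycle. -/
def Hyp (d : ℕ) : Set ℂ := {c | ∃ m z, IsAttractingCycle (f d c) m z}

/-- The perturbation `(id + t Φ) ∘ f_c` of `f_c`. For `Φ = 1` it is `f_(c + t)`. -/
def g (d : ℕ) (c : ℂ) (Φ : ℂ → ℂ) (t : ℂ) : ℂ → ℂ := fun z => f d c z + t * Φ (f d c z)

/-- The velocity at `t = 0` of the `n`-th point of the critical orbit under this perturbation. -/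
noncomputable def V (d : ℕ) (c : ℂ) (Φ : ℂ → ℂ) (n : ℕ) : ℂ :=
  deriv (fun t : ℂ => (g d c Φ t)^[n] 0) 0

/-- The potential of `μ` on the disc of radius `4`. If `μ` is bounded then this is a quasiconformal
vector field with `∂̄`-derivative `- π μ` on the disc. -/
noncomputable def pot (μ : ℂ → ℂ) (w : ℂ) : ℂ := ∫ x in ball (0 : ℂ) 4, μ x / (x - w)

/-- **Every perturbation is a change of the parameter plus a quasiconformal one.** For every
parameter of every Multibrot set and every holomorphic perturbation `Φ` there are a number `R` and a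
quasiconformal vector field `u` with explicit bounds such that `Φ ∘ f - R = u ∘ f - f' u` on the
whole filled Julia set and `u (0) = 0`; so the critical orbit moves with the velocities
`R P_n' + u (P_n)`. Hence if there are no attracting cycles for the parameters near `c`, then under
all perturbations the velocity is a log-Lipschitz function on the critical orbit. -/
theorem result {d : ℕ} (hd : 2 ≤ d) {c : ℂ} (hc : c ∈ multibrotSet d) {Φ : ℂ → ℂ} {M : ℝ}
    (hΦ : DifferentiableOn ℂ Φ (ball 0 4)) (hM : ∀ x ∈ ball (0 : ℂ) 4, ‖Φ x‖ ≤ M) :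
    (∀ n : ℕ, DifferentiableAt ℂ (fun t : ℂ => (g d c Φ t)^[n] 0) 0) ∧
    (∃ (R : ℂ) (μ : ℂ → ℂ), ‖R‖ ≤ 4 * M ∧ Measurable μ ∧ (∀ x, ‖μ x‖ ≤ M / (3 * Real.pi)) ∧
      pot μ 0 = 0 ∧
      (∀ z ∈ filledJulia d c,
        Φ (f d c z) - R = pot μ (f d c z) - deriv (f d c) z * pot μ z) ∧
      ∀ n : ℕ, V d c Φ n = R * deriv (P d n) c + pot μ (P d n c)) ∧
    ∀ r : ℝ, Disjoint (ball c r) (Hyp d) → ∀ n m : ℕ,
      r * ‖V d c Φ n - V d c Φ m‖ ≤
        24 * M * ‖P d n c - P d m c‖ * (1 + |Real.log ‖P d n c - P d m c‖|) := by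
  have h1 : ∀ n, HasDerivAt (fun t : ℂ => (g d c Φ t)^[n] 0)
      (Pool.Agent.R240.Univ.vel d c Φ n) 0 := fun n => Pool.Agent.R240.Univ.vel_deriv hd hc hΦ n
  have h2 : ∀ n, deriv (P d n) c = Pool.Agent.R240.Univ.vel d c (fun _ => 1) n :=
    fun n => (Pool.Agent.R240.Univ.vel_one c n).deriv
  have h3 : ∀ n, V d c Φ n = Pool.Agent.R240.Univ.vel d c Φ n := fun n => (h1 n).deriv
  have hc2 := Pool.Agent.R240.Univ.norm_c_le hd hc
  refine ⟨fun n => (h1 n).differentiableAt, ?_, ?_⟩
  · obtain ⟨R, μ, hR, hμ1, hμ2, hμ3, h⟩ := Pool.Agent.R240.Full.decomp2 hd hc2 hΦ hM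
    have hpot : ∀ w, pot μ w = Pool.Agent.R240.Full.pot μ w := by
      intro w
      unfold pot Pool.Agent.R240.Full.pot
      simp only [mul_one_div]
    refine ⟨R, μ, hR, hμ1, hμ2, by rw [hpot]; exact hμ3, ?_, fun n => ?_⟩
    · rintro z ⟨B, hB⟩
      have hz := Pool.Agent.R240.Full.norm_le_of_bdd hd hc2 hB
      have hfz : ‖z ^ d + c‖ ≤ 2 := by
        apply Pool.Agent.R240.Full.norm_le_of_bdd hd hc2 (B := B)
        intro n
        have := hB (n + 1)
        rwa [Function.iterate_succ_apply] at this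
      have h4 := h z hz hfz
      have h5 : deriv (f d c) z = d * z ^ (d - 1) := by
        have := ((hasDerivAt_pow d z).add_const c).deriv
        exact this
      have h6 : f d c z = z ^ d + c := rfl
      rw [hpot, hpot, h5, h6, h4]
      ring
    · rw [h3, h2, hpot]
      exact Pool.Agent.R240.Full.vel_pot hd hc hμ3 h n
  · intro r hr n m
    have hM0 : 0 ≤ M := (norm_nonneg _).trans (hM 0 (mem_ball_self (by norm_num)))
    rcases le_or_gt r 0 with hr0 | hr0
    · have : r * ‖V d c Φ n - V d c Φ m‖ ≤ 0 := mul_nonpos_of_nonpos_of_nonneg hr0 (norm_nonneg _)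
      refine this.trans ?_
      positivity
    rw [h3, h3]
    refine Pool.Agent.R240.Pair.queer_vel hd hr0 hc (fun t ht hcon => ?_) hΦ hM n m
    obtain ⟨k, z, hk⟩ := hcon
    exact Set.disjoint_left.1 hr ht ⟨k, z, hk⟩

end Pool.Agent.Results.MP_c35c17_an.Decomposition
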