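import Pool.Prelude.Def_F_c31e40fa
import Pool.Agent.R240.Newton
import Pool.Agent.H548R3.MB.Eff2

set_option autoImplicit false

open Filter Topology Set Metric Complex N62a1eb23

namespace Pool.Agent.Results.MP_c35c17_an.NewtonStep

/-- The map `z ↦ z ^ d + c`. -/
def f (d : ℕ) (c : ℂ) : ℂ → ℂ := fun z => z ^ d + c

/-- The point `f_c^n (0)` of the critical orbit, as a polynomial in the parameter `c`. Its roots are
the parameters for which `0` is periodic with period dividing `n`. -/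
def P (d n : ℕ) (c : ℂ) : ℂ := (f d c)^[n] 0

/-- The parameters `c` for which `z ^ d + c` has an attracting cycle. -/
def Hyp (d : ℕ) : Set ℂ := {c | ∃ m z, IsAttractingCycle (f d c) m z}

/-- **The nearest superattracting parameter is within `K (1 + |log |P_n(c)||)` Newton steps**, with
one constant `K` for all degrees, all periods and all parameters of the Multibrot sets. In
particular this bounds the distance to the parameters with an attracting cycle. -/
theorem result :
    ∃ K : ℝ, 0 < K ∧ ∀ d : ℕ, 2 ≤ d → ∀ n : ℕ, 1 ≤ n →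
      -- the parameters considered contain the Multibrot set
      (∀ c ∈ multibrotSet d, ‖P d n c‖ ≤ 2) ∧
      ∀ c : ℂ, ‖P d n c‖ ≤ 2 →
        (∃ c' : ℂ, P d n c' = 0 ∧ IsAttractingCycle (f d c') n 0 ∧
          ‖c' - c‖ * ‖deriv (P d n) c‖ ≤ K * ‖P d n c‖ * (1 + |Real.log ‖P d n c‖|)) ∧
        ∀ r : ℝ, Disjoint (ball c r) (Hyp d) →
          r * ‖deriv (P d n) c‖ ≤ K * ‖P d n c‖ * (1 + |Real.log ‖P d n c‖|) := by
  refine ⟨Pool.Agent.R240.KN, Pool.Agent.R240.KN_pos, ?_⟩
  intro d hd n hn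
  obtain ⟨N, rfl⟩ : ∃ N, n = N + 1 := ⟨n - 1, by omega⟩
  refine ⟨fun c hc => (Pool.Agent.H712R2.mem_multibrot_iff hd c).1 hc (N + 1), ?_⟩
  intro c hc
  have hc2 : ‖c‖ ≤ 2 := by
    by_contra hcon
    push Not at hcon
    have h1 : ∀ k : ℕ, 2 < ‖Pool.Agent.H712R2.P d (k + 1) c‖ := by
      intro k
      induction k with
      | zero =>
        rw [Pool.Agent.H712R2.P_one hd]
        exact hcon
      | succ k ih =>
        have h2 := Pool.Agent.H712R2.esc_of_gt hd (k := k + 1) (by omega) ih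
        have h3 := Pool.Agent.H712R2.esc_step hd ih h2
        linarith
    exact absurd hc (not_le.2 (h1 N))
  have hmain : ∃ c' : ℂ, P d (N + 1) c' = 0 ∧ IsAttractingCycle (f d c') (N + 1) 0 ∧
      ‖c' - c‖ * ‖deriv (P d (N + 1)) c‖ ≤
        Pool.Agent.R240.KN * ‖P d (N + 1) c‖ * (1 + |Real.log ‖P d (N + 1) c‖|) := by
    obtain ⟨c', h1, h2⟩ := Pool.Agent.R240.newton hd hc hc2
    exact ⟨c', h1, Pool.Agent.H548R3.MB.att_of_centre hd (by omega) h1, h2⟩
  refine ⟨hmain, ?_⟩
  intro r hr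
  obtain ⟨c', _, h2, h3⟩ := hmain
  refine le_trans ?_ h3
  apply mul_le_mul_of_nonneg_right _ (norm_nonneg _)
  by_contra hcon
  push Not at hcon
  exact Set.disjoint_left.1 hr (by rw [mem_ball, dist_eq_norm]; exact hcon) ⟨_, _, h2⟩

end Pool.Agent.Results.MP_c35c17_an.NewtonStep
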